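import Mathlib
import Pool.Agent.X213.TppAlg

/-!
# The Lie exponent of `SL(n, ℝ)` is finite if and only if `n ≥ 3`
-/

set_option autoImplicit false

open Set Filter Topology Module Matrix
open scoped Matrix.Norms.Elementwise ContDiff

namespace Pool.Agent.Results.MP_9660fa_lc.FiniteIffThree

open Pool.Agent.X213.TppDim Pool.Agent.X213.TppAlg

/-- The vector space of the real `n × n` matrices. -/
abbrev Mat (n : ℕ) := Matrix (Fin n) (Fin n) ℝ

/-- `M` is an `m`-dimensional (nonempty, embedded, `C^∞`) submanifold of `SL(n, ℝ)`: around each of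
its points there is a `C^∞` diffeomorphism `e` between open sets of matrices under which `M`
corresponds to an affine subspace of dimension `m`. -/
def IsSubmanifold {n : ℕ} (m : ℕ) (M : Set (SL n)) : Prop :=
  M.Nonempty ∧ ∀ x ∈ M, ∃ e : OpenPartialHomeomorph (Mat n) (Mat n), x.1 ∈ e.source ∧
    ContDiffOn ℝ ∞ e e.source ∧ ContDiffOn ℝ ∞ e.symm e.target ∧
    ∃ W : Submodule ℝ (Mat n), finrank ℝ W = m ∧
      ∀ y ∈ e.source, ((∃ g ∈ M, g.1 = y) ↔ e y - e x.1 ∈ W)

/-- The Lie exponent of `SL(n, ℝ)`, a group of dimension `n² - 1` and of rank `n - 1`. -/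
noncomputable def lieExponent (n : ℕ) : EReal :=
  sInf {w : EReal | ∃ (M₁ M₂ M₃ : Set (SL n)) (m₁ m₂ m₃ : ℕ),
    IsSubmanifold m₁ M₁ ∧ IsSubmanifold m₂ M₂ ∧ IsSubmanifold m₃ M₃ ∧
    TripleProductProperty M₁ M₂ M₃ ∧
    (0 : ℝ) < ((m₁ : ℝ) + m₂ + m₃) / 3 - (((n : ℝ) ^ 2 - 1) - ((n : ℝ) - 1)) / 2 ∧
    w = ((((n : ℝ) - 1) /
      (((m₁ : ℝ) + m₂ + m₃) / 3 - (((n : ℝ) ^ 2 - 1) - ((n : ℝ) - 1)) / 2) : ℝ) : EReal)}

/-! ### Cells in submanifolds -/

theorem IsSubmanifold.containsCell {n m : ℕ} {M : Set (SL n)} (h : IsSubmanifold m M) :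
    ContainsCell m M := by
  classical
  obtain ⟨⟨x, hx⟩, h⟩ := h
  obtain ⟨e, hxe, he1, he2, W, hW, heW⟩ := h x hx
  let L : EuclideanSpace ℝ (Fin m) ≃L[ℝ] W := ContinuousLinearEquiv.ofFinrankEq (by simp [hW])
  let P : EuclideanSpace ℝ (Fin m) → Mat n := fun v => e x.1 + (L v : Mat n)
  have hP : Continuous P := continuous_const.add (continuous_subtype_val.comp L.continuous)
  let O : Set (EuclideanSpace ℝ (Fin m)) := P ⁻¹' e.target
  have hO : IsOpen O := e.open_target.preimage hP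
  have hmem : ∀ v ∈ O, ∃ g ∈ M, g.1 = e.symm (P v) := by
    intro v hv
    rw [heW _ (e.map_target hv), e.right_inv hv]
    simp [P]
  let φ : EuclideanSpace ℝ (Fin m) → SL n := fun v =>
    if hv : ∃ g ∈ M, g.1 = e.symm (P v) then hv.choose else 1
  have hφ : ∀ v ∈ O, φ v ∈ M ∧ (φ v).1 = e.symm (P v) := by
    intro v hv
    have hv' := hmem v hv
    simp only [φ]
    rw [dif_pos hv']
    exact hv'.choose_spec
  refine ⟨φ, O, hO, ⟨0, ?_⟩, ?_, ?_, fun v hv => (hφ v hv).1⟩
  · simpa [O, P] using e.map_source hxe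
  · rw [continuousOn_iff_continuous_domRestrict]
    refine Topology.IsInducing.subtypeVal.continuous_iff.2 ?_
    have h1 : ContinuousOn (fun v => e.symm (P v)) O :=
      e.continuousOn_symm.comp hP.continuousOn (fun v hv => hv)
    rw [continuousOn_iff_continuous_domRestrict] at h1
    refine h1.congr ?_
    rintro ⟨v, hv⟩
    exact (hφ v hv).2.symm
  · intro v hv w hw hvw
    have h1 : e.symm (P v) = e.symm (P w) := by
      rw [← (hφ v hv).2, ← (hφ w hw).2, hvw]
    have h2 := e.symm.injOn hv hw h1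
    exact L.injective (Subtype.ext (add_left_cancel h2))

/-! ### The chart of `SL(n, ℝ)` -/

theorem card_ne {k : ℕ} : Fintype.card {p : Fin (k + 1) × Fin (k + 1) // p ≠ (0, 0)} =
    (k + 1) ^ 2 - 1 := by
  have : Fintype.card {p : Fin (k + 1) × Fin (k + 1) // p ≠ (0, 0)} =
      Fintype.card (Fin (k + 1) × Fin (k + 1)) - 1 := by
    rw [Fintype.card_subtype_compl]
    simp
  rw [this]
  simp [sq]

/-- The chart of `SL(n, ℝ)` at the identity given by all entries but one. -/
noncomputable def chart (k : ℕ) : Chart (SL (k + 1)) ((k + 1) ^ 2 - 1) where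
  N := {g | (g.1.submatrix Fin.succ Fin.succ).det ≠ 0}
  c := fun g => (EuclideanSpace.equiv (Fin ((k + 1) ^ 2 - 1)) ℝ).symm
    (fun i => g.1 ((Fintype.equivFinOfCardEq (card_ne (k := k))).symm i).1.1
      ((Fintype.equivFinOfCardEq (card_ne (k := k))).symm i).1.2)
  one_mem := by
    change ((1 : Matrix (Fin (k + 1)) (Fin (k + 1)) ℝ).submatrix Fin.succ Fin.succ).det ≠ 0
    rw [Matrix.submatrix_one _ (Fin.succ_injective k), det_one]
    exact one_ne_zero
  isOpen := by
    refine isOpen_ne_fun ?_ continuous_const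
    exact (continuous_subtype_val.matrix_submatrix _ _).matrix_det
  cont := by
    apply Continuous.continuousOn
    apply (ContinuousLinearEquiv.continuous _).comp
    apply continuous_pi
    intro i
    exact continuous_subtype_val.matrix_elem _ _
  inj := by
    intro g hg h hh hgh
    have h1 : ∀ i j, (i, j) ≠ ((0, 0) : Fin (k + 1) × Fin (k + 1)) → g.1 i j = h.1 i j := by
      intro i j hij
      have h2 := (EuclideanSpace.equiv (Fin ((k + 1) ^ 2 - 1)) ℝ).symm.injective hgh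
      have h3 := congrFun h2 (Fintype.equivFinOfCardEq (card_ne (k := k)) ⟨(i, j), hij⟩)
      simpa using h3
    have hg1 := g.2
    have hh1 := h.2
    rw [det_succ_row_zero, Fin.sum_univ_succ] at hg1 hh1
    have h4 : ∀ j : Fin (k + 1), g.1.submatrix Fin.succ j.succAbove =
        h.1.submatrix Fin.succ j.succAbove := by
      intro j
      ext a b
      simp only [submatrix_apply]
      exact h1 _ _ (by simp)
    have h5 : ∑ j : Fin k, (-1 : ℝ) ^ ((j.succ : Fin (k + 1)) : ℕ) * g.1 0 j.succ *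
        (g.1.submatrix Fin.succ j.succ.succAbove).det =
        ∑ j : Fin k, (-1 : ℝ) ^ ((j.succ : Fin (k + 1)) : ℕ) * h.1 0 j.succ *
        (h.1.submatrix Fin.succ j.succ.succAbove).det := by
      apply Finset.sum_congr rfl
      intro j _
      rw [h4, h1 0 j.succ (by simp)]
    rw [h5, h4 0] at hg1
    have h6 : (h.1.submatrix Fin.succ (Fin.succAbove 0)).det ≠ 0 := by
      have : (Fin.succAbove (0 : Fin (k + 1))) = Fin.succ := by
        funext j
        simp
      rw [this]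
      exact hh
    have h7 : g.1 0 0 = h.1 0 0 := by
      have h8 := hg1.trans hh1.symm
      simp only [Fin.val_zero, pow_zero, one_mul, add_left_inj] at h8
      exact mul_right_cancel₀ h6 h8
    apply Subtype.ext
    ext i j
    by_cases hij : (i, j) = ((0, 0) : Fin (k + 1) × Fin (k + 1))
    · obtain ⟨rfl, rfl⟩ := Prod.mk.inj hij
      exact h7
    · exact h1 i j hij

/-! ### The index set of the strictly triangular matrices -/

/-- The places below the diagonal. -/
abbrev Lt (n : ℕ) := (i : Fin n) × Fin (i : ℕ)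

theorem card_Lt (n : ℕ) : Fintype.card (Lt n) = n * (n - 1) / 2 := by
  rw [Fintype.card_sigma]
  simp only [Fintype.card_fin]
  rw [Fin.sum_univ_eq_sum_range (fun i => i) n, Finset.sum_range_id]

theorem finrank_Lt (n : ℕ) : finrank ℝ (Lt n → ℝ) = n * (n - 1) / 2 := by
  rw [finrank_fintype_fun_eq_card, card_Lt]

/-! ### Unipotent lower triangular matrices -/

/-- The strictly lower triangular matrices. -/
def WN (n : ℕ) : Submodule ℝ (Mat n) where
  carrier := {B | ∀ i j, i ≤ j → B i j = 0}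
  add_mem' := by
    intro A B hA hB i j hij
    rw [Matrix.add_apply, hA i j hij, hB i j hij, add_zero]
  zero_mem' := fun i j _ => rfl
  smul_mem' := by
    intro c A hA i j hij
    rw [Matrix.smul_apply, hA i j hij, smul_zero]

/-- Coordinates on the strictly lower triangular matrices. -/
def eqN (n : ℕ) : WN n ≃ₗ[ℝ] (Lt n → ℝ) where
  toFun B := fun p => B.1 p.1 ⟨p.2, p.2.2.trans p.1.2⟩
  invFun f := ⟨fun i j => if h : j < i then f ⟨i, ⟨j, h⟩⟩ else 0, fun i j hij => by
    simp [not_lt.2 hij]⟩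
  map_add' _ _ := rfl
  map_smul' _ _ := rfl
  left_inv := by
    rintro ⟨B, hB⟩
    apply Subtype.ext
    ext i j
    by_cases h : j < i
    · simp [h]
    · simp [h, hB i j (not_lt.1 h)]
  right_inv := by
    intro f
    funext ⟨i, j⟩
    have : (⟨(j : ℕ), j.2.trans i.2⟩ : Fin n) < i := j.2
    simp [this]

theorem finrank_WN (n : ℕ) : finrank ℝ (WN n) = n * (n - 1) / 2 := by
  rw [(eqN n).finrank_eq, finrank_Lt]

theorem isSubmanifold_Nm (n : ℕ) : IsSubmanifold (n * (n - 1) / 2) (Nm n : Set (SL n)) := by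
  refine ⟨⟨1, (Nm n).one_mem⟩, fun x hx => ⟨OpenPartialHomeomorph.refl _, trivial,
    contDiffOn_id, contDiffOn_id, WN n, finrank_WN n, fun y _ => ?_⟩⟩
  change (∃ g ∈ (Nm n : Set (SL n)), g.1 = y) ↔ y - x.1 ∈ WN n
  constructor
  · rintro ⟨g, hg, rfl⟩ i j hij
    rw [Matrix.sub_apply]
    rcases lt_or_eq_of_le hij with h | h
    · rw [hg.1 i j h, hx.1 i j h, sub_zero]
    · subst h
      rw [hg.2, hx.2, sub_self]
  · intro hy
    have h1 : ∀ i j, i < j → y i j = 0 := by
      intro i j hij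
      have := hy i j hij.le
      rw [Matrix.sub_apply, hx.1 i j hij, sub_zero] at this
      exact this
    have h2 : ∀ i, y i i = 1 := by
      intro i
      have := hy i i le_rfl
      rw [Matrix.sub_apply, hx.2, sub_eq_zero] at this
      exact this
    have h3 : y.det = 1 := by
      have hL : y.IsLowerTriangular := fun i j hij => h1 _ _ hij
      rw [det_of_isLowerTriangular _ hL]
      simp [h2]
    exact ⟨⟨y, h3⟩, ⟨h1, h2⟩, rfl⟩

/-! ### Orthogonal matrices -/

/-- The skew symmetric matrices. -/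
def WS (n : ℕ) : Submodule ℝ (Mat n) where
  carrier := {B | Bᵀ = -B}
  add_mem' := by
    intro A B hA hB
    change (A + B)ᵀ = -(A + B)
    rw [transpose_add, show Aᵀ = -A from hA, show Bᵀ = -B from hB, neg_add]
  zero_mem' := by
    change (0 : Mat n)ᵀ = -0
    simp
  smul_mem' := by
    intro c A hA
    change (c • A)ᵀ = -(c • A)
    rw [transpose_smul, show Aᵀ = -A from hA, smul_neg]

/-- Coordinates on the skew symmetric matrices. -/
def eqS (n : ℕ) : WS n ≃ₗ[ℝ] (Lt n → ℝ) where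
  toFun B := fun p => B.1 p.1 ⟨p.2, p.2.2.trans p.1.2⟩
  invFun f := ⟨Matrix.of fun i j => if h : j < i then f ⟨i, ⟨j, h⟩⟩ else
      if h : i < j then - f ⟨j, ⟨i, h⟩⟩ else 0, by
    change Matrix.transpose _ = - _
    ext i j
    rw [transpose_apply, Matrix.neg_apply, of_apply, of_apply]
    rcases lt_trichotomy i j with h | h | h
    · simp [h, not_lt.2 h.le]
    · simp [h]
    · simp [h, not_lt.2 h.le]⟩
  map_add' _ _ := rfl
  map_smul' _ _ := rfl
  left_inv := by
    rintro ⟨B, hB⟩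
    apply Subtype.ext
    have hB' : ∀ i j, B j i = - B i j := by
      intro i j
      have : Bᵀ i j = (-B) i j := by rw [show Bᵀ = -B from hB]
      rwa [transpose_apply, Matrix.neg_apply] at this
    ext i j
    change (Matrix.of (fun i j => if h : j < i then B i j else
      if h : i < j then - B j i else 0) : Mat n) i j = B i j
    rw [of_apply]
    rcases lt_trichotomy i j with h | h | h
    · simp only [not_lt.2 h.le, h, dite_false, dite_true]
      rw [hB' i j, neg_neg]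
    · subst h
      have := hB' i i
      have h0 : B i i = 0 := by linarith
      simp [h0]
    · simp [h]
  right_inv := by
    intro f
    funext ⟨i, j⟩
    have : (⟨(j : ℕ), j.2.trans i.2⟩ : Fin n) < i := j.2
    simp [this]

theorem finrank_WS (n : ℕ) : finrank ℝ (WS n) = n * (n - 1) / 2 := by
  rw [(eqS n).finrank_eq, finrank_Lt]

/-- The Cayley transform. -/
noncomputable def cay {n : ℕ} (A : Mat n) : Mat n := (2 : ℝ) • (1 + A)⁻¹ - 1

theorem one_add_cay {n : ℕ} (A : Mat n) : 1 + cay A = (2 : ℝ) • (1 + A)⁻¹ := by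
  rw [cay]
  abel

theorem cay_inv {n : ℕ} {A : Mat n} (hA : (1 + A).det ≠ 0) :
    (1 + cay A)⁻¹ = (1 / 2 : ℝ) • (1 + A) := by
  rw [one_add_cay]
  apply inv_eq_right_inv
  rw [smul_mul_smul_comm, nonsing_inv_mul _ (isUnit_iff_ne_zero.2 hA)]
  norm_num

theorem cay_mem {n : ℕ} {A : Mat n} (hA : (1 + A).det ≠ 0) : (1 + cay A).det ≠ 0 := by
  rw [one_add_cay, det_smul, det_nonsing_inv]
  apply mul_ne_zero
  · positivity
  · simpa using hA

theorem cay_cay {n : ℕ} {A : Mat n} (hA : (1 + A).det ≠ 0) : cay (cay A) = A := by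
  rw [cay, cay_inv hA, smul_smul]
  norm_num

theorem orth_iff {n : ℕ} {A : Mat n} (hA : (1 + A).det ≠ 0) :
    Aᵀ * A = 1 ↔ cay A ∈ WS n := by
  have hu : IsUnit (1 + A).det := isUnit_iff_ne_zero.2 hA
  have h1 : (1 + A)⁻¹ * (1 + A) = 1 := nonsing_inv_mul _ hu
  have h2 : (1 + A) * (1 + A)⁻¹ = 1 := mul_nonsing_inv _ hu
  have h1' : (1 + A)ᵀ * ((1 + A)⁻¹)ᵀ = 1 := by rw [← transpose_mul, h1, transpose_one]
  have h2' : ((1 + A)⁻¹)ᵀ * (1 + A)ᵀ = 1 := by rw [← transpose_mul, h2, transpose_one]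
  set X := (1 + A)⁻¹ with hX
  have key : cay A ∈ WS n ↔ X + Xᵀ = 1 := by
    change (cay A)ᵀ = - cay A ↔ _
    rw [cay, transpose_sub, transpose_smul, transpose_one]
    constructor
    · intro h
      have h3 : (2 : ℝ) • (X + Xᵀ) = (2 : ℝ) • (1 : Mat n) := by
        rw [smul_add]
        have h4 : (2 : ℝ) • Xᵀ = (2 : ℝ) • Xᵀ - 1 + 1 := by abel
        rw [h4, h]
        rw [two_smul ℝ (1 : Mat n)]
        abel
      exact smul_right_injective _ (two_ne_zero) h3
    · intro h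
      have h4 : Xᵀ = 1 - X := by rw [← h]; abel
      rw [h4, smul_sub, two_smul ℝ (1 : Mat n)]
      abel
  have key2 : (1 + A)ᵀ * (X + Xᵀ) * (1 + A) = 1 + A + (1 + A)ᵀ := by
    have h3 : ∀ P Q R S : Mat n, P * (Q + R) * S = P * R * S + P * (Q * S) := by
      intro P Q R S
      rw [mul_add, add_mul, mul_assoc P Q S, add_comm]
    rw [h3, h1, mul_one, h1', one_mul]
  rw [key]
  constructor
  · intro h
    have h5 : (1 + A)ᵀ * (X + Xᵀ) * (1 + A) = (1 + A)ᵀ * (1 + A) := by
      rw [key2, transpose_add, transpose_one, add_mul, one_mul, mul_add, mul_one, h]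
      abel
    have h6 : X + Xᵀ = (Xᵀ * (1 + A)ᵀ) * (X + Xᵀ) * ((1 + A) * X) := by
      rw [h2', h2, one_mul, mul_one]
    rw [h6]
    calc (Xᵀ * (1 + A)ᵀ) * (X + Xᵀ) * ((1 + A) * X)
        = Xᵀ * ((1 + A)ᵀ * (X + Xᵀ) * (1 + A)) * X := by simp only [mul_assoc]
      _ = Xᵀ * ((1 + A)ᵀ * (1 + A)) * X := by rw [h5]
      _ = (Xᵀ * (1 + A)ᵀ) * ((1 + A) * X) := by simp only [mul_assoc]
      _ = 1 := by rw [h2', h2, one_mul]
  · intro h
    rw [h, mul_one, transpose_add, transpose_one, add_mul, one_mul, mul_add, mul_one] at key2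
    have h7 : Aᵀ * A = (1 + A + (Aᵀ + Aᵀ * A)) - (1 + A + Aᵀ) := by abel
    rw [h7, key2]
    abel

theorem det_of_orth {n : ℕ} {A : Mat n} (hA : (1 + A).det ≠ 0) (h : Aᵀ * A = 1) : A.det = 1 := by
  have h1 : (1 + A)ᵀ * A = 1 + A := by
    rw [transpose_add, transpose_one, add_mul, one_mul, h, add_comm]
  have h2 := congrArg det h1
  rw [det_mul, det_transpose] at h2
  exact mul_left_cancel₀ hA (by rw [h2, mul_one])

theorem contDiff_entry {n : ℕ} (i j : Fin n) : ContDiff ℝ ∞ (fun A : Mat n => A i j) :=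
  contDiff_apply_apply (𝕜 := ℝ) (E := ℝ) (n := ∞) i j

theorem contDiff_det {κ : Type*} [Fintype κ] [DecidableEq κ] {n : ℕ} {f : Mat n → Matrix κ κ ℝ}
    (hf : ∀ i j, ContDiff ℝ ∞ (fun A => f A i j)) : ContDiff ℝ ∞ (fun A => (f A).det) := by
  simp only [det_apply]
  refine ContDiff.sum fun σ _ => ?_
  refine ContDiff.const_smul _ ?_
  exact contDiff_prod fun i _ => hf _ _

theorem contDiffOn_cay (n : ℕ) : ContDiffOn ℝ ∞ (cay : Mat n → Mat n) {A | (1 + A).det ≠ 0} := by
  have hent : ∀ i j, ContDiff ℝ ∞ (fun A : Mat n => (1 + A) i j) := by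
    intro i j
    simp only [Matrix.add_apply]
    exact contDiff_const.add (contDiff_entry i j)
  refine contDiffOn_pi.2 fun i => contDiffOn_pi.2 fun j => ?_
  have h1 : ∀ A : Mat n, cay A i j = 2 * (((1 + A).det)⁻¹ * (1 + A).adjugate i j) -
      (1 : Mat n) i j := by
    intro A
    rw [cay, Matrix.sub_apply, Matrix.smul_apply, inv_def, Matrix.smul_apply,
      Ring.inverse_eq_inv']
    rfl
  have h2 : ContDiffOn ℝ ∞ (fun A : Mat n => 2 * (((1 + A).det)⁻¹ * (1 + A).adjugate i j) -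
      (1 : Mat n) i j) {A | (1 + A).det ≠ 0} := by
    refine ContDiffOn.sub (contDiffOn_const.mul (ContDiffOn.mul ?_ ?_)) contDiffOn_const
    · exact (contDiff_det hent).contDiffOn.inv fun A hA => hA
    · apply ContDiff.contDiffOn
      simp only [adjugate_apply]
      apply contDiff_det
      intro a b
      by_cases hab : a = j
      · subst hab
        simp only [updateRow_self]
        exact contDiff_const
      · simp only [updateRow_ne hab]
        exact hent a b
  exact h2.congr fun A _ => h1 A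

/-- The Cayley chart. -/
noncomputable def cayChart (n : ℕ) : OpenPartialHomeomorph (Mat n) (Mat n) where
  toFun := cay
  invFun := cay
  source := {A | (1 + A).det ≠ 0}
  target := {A | (1 + A).det ≠ 0}
  map_source' _ h := cay_mem h
  map_target' _ h := cay_mem h
  left_inv' _ h := cay_cay h
  right_inv' _ h := cay_cay h
  open_source := isOpen_ne_fun (continuous_const.add continuous_id).matrix_det continuous_const
  open_target := isOpen_ne_fun (continuous_const.add continuous_id).matrix_det continuous_const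
  continuousOn_toFun := (contDiffOn_cay n).continuousOn
  continuousOn_invFun := (contDiffOn_cay n).continuousOn

theorem isSubmanifold_Op (n : ℕ) : IsSubmanifold (n * (n - 1) / 2) (Op n) := by
  refine ⟨⟨1, ?_, ?_⟩, fun x hx => ⟨cayChart n, hx.2, contDiffOn_cay n, contDiffOn_cay n, WS n,
    finrank_WS n, fun y hy => ?_⟩⟩
  · simp
  · have : (1 : Mat n) + (1 : SL n).1 = (2 : ℝ) • (1 : Mat n) := by
      rw [two_smul]; rfl
    rw [this, det_smul, det_one, mul_one]
    positivity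
  · have hx1 : cay x.1 ∈ WS n := (orth_iff hx.2).1 hx.1
    change (∃ g ∈ Op n, g.1 = y) ↔ cay y - cay x.1 ∈ WS n
    have h1 : cay y - cay x.1 ∈ WS n ↔ cay y ∈ WS n := by
      constructor
      · intro h
        have := (WS n).add_mem h hx1
        simpa using this
      · intro h
        exact (WS n).sub_mem h hx1
    have hy' : (1 + y).det ≠ 0 := hy
    rw [h1, ← orth_iff hy']
    constructor
    · rintro ⟨g, hg, rfl⟩
      exact hg.1
    · intro h
      exact ⟨⟨y, det_of_orth hy' h⟩, ⟨h, hy'⟩, rfl⟩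

/-! ### Upper triangular matrices -/

/-- The functional `(∑ d_i, ∑ i d_i)`. -/
def fB (n : ℕ) : (Fin n → ℝ) →ₗ[ℝ] ℝ × ℝ where
  toFun d := (∑ i, d i, ∑ i : Fin n, ((i : ℕ) : ℝ) * d i)
  map_add' d d' := by
    ext
    · simp [Finset.sum_add_distrib]
    · simp [mul_add, Finset.sum_add_distrib]
  map_smul' c d := by
    ext
    · simp [Finset.mul_sum]
    · simp only [Pi.smul_apply, smul_eq_mul, RingHom.id_apply, Prod.smul_mk, Finset.mul_sum]
      exact Finset.sum_congr rfl fun i _ => by ring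

theorem fB_surj {n : ℕ} (hn : 2 ≤ n) : LinearMap.range (fB n) = ⊤ := by
  rw [LinearMap.range_eq_top]
  rintro ⟨a, b⟩
  obtain ⟨k, rfl⟩ : ∃ k, n = k + 2 := ⟨n - 2, by omega⟩
  refine ⟨Fin.cons (a - b) (Fin.cons b (fun _ => 0)), ?_⟩
  ext
  · simp [fB, Fin.sum_univ_succ]
  · simp [fB, Fin.sum_univ_succ]

theorem finrank_ker {n : ℕ} (hn : 2 ≤ n) : finrank ℝ (LinearMap.ker (fB n)) = n - 2 := by
  have h1 := LinearMap.finrank_range_add_finrank_ker (fB n)
  rw [fB_surj hn, finrank_top, finrank_prod, finrank_self, finrank_fintype_fun_eq_card,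
    Fintype.card_fin] at h1
  omega

/-- The tangent space. -/
def WB (n : ℕ) : Submodule ℝ (Mat n) where
  carrier := {B | (∀ i j, j < i → B i j = 0) ∧ fB n (fun i => B i i) = 0}
  add_mem' := by
    rintro A B ⟨hA, hA'⟩ ⟨hB, hB'⟩
    refine ⟨fun i j hij => ?_, ?_⟩
    · rw [Matrix.add_apply, hA i j hij, hB i j hij, add_zero]
    · have : (fun i => (A + B) i i) = (fun i => A i i) + (fun i => B i i) := rfl
      rw [this, map_add, hA', hB', add_zero]
  zero_mem' := ⟨fun i j _ => rfl, by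
    have : (fun i => (0 : Mat n) i i) = 0 := rfl
    rw [this, map_zero]⟩
  smul_mem' := by
    rintro c A ⟨hA, hA'⟩
    refine ⟨fun i j hij => ?_, ?_⟩
    · rw [Matrix.smul_apply, hA i j hij, smul_zero]
    · have : (fun i => (c • A) i i) = c • (fun i => A i i) := rfl
      rw [this, map_smul, hA', smul_zero]

/-- Coordinates on the tangent space. -/
noncomputable def eqB (n : ℕ) : WB n ≃ₗ[ℝ] (Lt n → ℝ) × LinearMap.ker (fB n) where
  toFun B := (fun p => B.1 ⟨p.2, p.2.2.trans p.1.2⟩ p.1, ⟨fun i => B.1 i i, B.2.2⟩)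
  invFun f := ⟨fun i j => if h : i < j then f.1 ⟨j, ⟨i, h⟩⟩ else if i = j then f.2.1 i else 0, by
    refine ⟨fun i j hij => ?_, ?_⟩
    · simp [not_lt.2 hij.le, hij.ne']
    · have : (fun i : Fin n => (if h : i < i then f.1 ⟨i, ⟨i, h⟩⟩ else
          if i = i then f.2.1 i else 0)) = f.2.1 := by
        funext i
        simp
      rw [this]
      exact f.2.2⟩
  map_add' _ _ := rfl
  map_smul' _ _ := rfl
  left_inv := by
    rintro ⟨B, hB⟩
    apply Subtype.ext
    ext i j
    rcases lt_trichotomy i j with h | h | h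
    · simp [h]
    · subst h
      simp
    · simp [not_lt.2 h.le, h.ne', hB.1 i j h]
  right_inv := by
    rintro ⟨f, d⟩
    refine Prod.ext ?_ ?_
    · funext ⟨i, j⟩
      have : (⟨(j : ℕ), j.2.trans i.2⟩ : Fin n) < i := j.2
      simp [this]
    · apply Subtype.ext
      funext i
      simp

theorem finrank_WB {n : ℕ} (hn : 2 ≤ n) : finrank ℝ (WB n) = n * (n - 1) / 2 + (n - 2) := by
  rw [(eqB n).finrank_eq, finrank_prod, finrank_Lt, finrank_ker hn]

/-- Logarithms on the diagonal. -/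
noncomputable def logd {n : ℕ} (A : Mat n) : Mat n :=
  fun i j => if i = j then Real.log (A i j) else A i j

/-- Exponentials on the diagonal. -/
noncomputable def expd {n : ℕ} (A : Mat n) : Mat n :=
  fun i j => if i = j then Real.exp (A i j) else A i j

theorem contDiffOn_logd (n : ℕ) : ContDiffOn ℝ ∞ (logd : Mat n → Mat n) {A | ∀ i, 0 < A i i} := by
  refine contDiffOn_pi.2 fun i => contDiffOn_pi.2 fun j => ?_
  by_cases h : i = j
  · subst h
    simp only [logd, if_true]
    exact (contDiff_entry i i).contDiffOn.log fun A hA => (hA i).ne'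
  · simp only [logd, h, if_false]
    exact (contDiff_entry i j).contDiffOn

theorem contDiffOn_expd (n : ℕ) : ContDiffOn ℝ ∞ (expd : Mat n → Mat n) univ := by
  refine contDiffOn_pi.2 fun i => contDiffOn_pi.2 fun j => ?_
  by_cases h : i = j
  · subst h
    simp only [expd, if_true]
    exact (contDiff_entry i i).contDiffOn.exp
  · simp only [expd, h, if_false]
    exact (contDiff_entry i j).contDiffOn

/-- The chart for upper triangular matrices. -/
noncomputable def logChart (n : ℕ) : OpenPartialHomeomorph (Mat n) (Mat n) where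
  toFun := logd
  invFun := expd
  source := {A | ∀ i, 0 < A i i}
  target := univ
  map_source' _ _ := trivial
  map_target' A _ := by
    intro i
    simp only [expd, if_true]
    exact Real.exp_pos _
  left_inv' A hA := by
    ext i j
    by_cases h : i = j
    · subst h
      simp only [expd, logd, if_true]
      exact Real.exp_log (hA i)
    · simp only [expd, logd, h, if_false]
  right_inv' A _ := by
    ext i j
    by_cases h : i = j
    · subst h
      simp only [expd, logd, if_true]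
      exact Real.log_exp _
    · simp only [expd, logd, h, if_false]
  open_source := by
    have : {A : Mat n | ∀ i, 0 < A i i} = ⋂ i, {A : Mat n | 0 < A i i} := by
      ext A
      simp
    rw [this]
    exact isOpen_iInter_of_finite fun i =>
      isOpen_lt continuous_const (continuous_id.matrix_elem i i)
  open_target := isOpen_univ
  continuousOn_toFun := (contDiffOn_logd n).continuousOn
  continuousOn_invFun := (contDiffOn_expd n).continuousOn

theorem mem_WB_iff {n : ℕ} {y : Mat n} (hy : ∀ i, 0 < y i i) :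
    logd y ∈ WB n ↔ (∀ i j, j < i → y i j = 0) ∧ ∏ i, y i i = 1 ∧
      ∏ i, y i i ^ (i : ℕ) = 1 := by
  have h1 : (∀ i j, j < i → logd y i j = 0) ↔ ∀ i j, j < i → y i j = 0 := by
    refine forall_congr' fun i => forall_congr' fun j => ?_
    constructor
    · intro h hij
      have := h hij
      rwa [logd, if_neg hij.ne'] at this
    · intro h hij
      rw [logd, if_neg hij.ne']
      exact h hij
  have h2 : ∑ i, logd y i i = Real.log (∏ i, y i i) := by
    rw [Real.log_prod (fun i _ => (hy i).ne')]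
    exact Finset.sum_congr rfl fun i _ => by simp [logd]
  have h3 : ∑ i : Fin n, ((i : ℕ) : ℝ) * logd y i i = Real.log (∏ i, y i i ^ (i : ℕ)) := by
    rw [Real.log_prod (fun i _ => (pow_pos (hy i) _).ne')]
    exact Finset.sum_congr rfl fun i _ => by simp [logd]
  have h4 : 0 < ∏ i, y i i := Finset.prod_pos fun i _ => hy i
  have h5 : 0 < ∏ i, y i i ^ (i : ℕ) := Finset.prod_pos fun i _ => pow_pos (hy i) _
  have h6 : fB n (fun i => logd y i i) = 0 ↔ ∏ i, y i i = 1 ∧ ∏ i, y i i ^ (i : ℕ) = 1 := by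
    rw [Prod.ext_iff]
    change (∑ i, logd y i i = 0 ∧ ∑ i : Fin n, ((i : ℕ) : ℝ) * logd y i i = 0) ↔ _
    rw [h2, h3]
    refine and_congr ?_ ?_
    · constructor
      · intro h
        exact Real.eq_one_of_pos_of_log_eq_zero h4 h
      · intro h
        rw [h, Real.log_one]
    · constructor
      · intro h
        exact Real.eq_one_of_pos_of_log_eq_zero h5 h
      · intro h
        rw [h, Real.log_one]
  exact and_congr h1 h6

theorem isSubmanifold_Bp {n : ℕ} (hn : 2 ≤ n) :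
    IsSubmanifold (n * (n - 1) / 2 + (n - 2)) (Bp n : Set (SL n)) := by
  refine ⟨⟨1, (Bp n).one_mem⟩, fun x hx => ⟨logChart n, hx.2.1, contDiffOn_logd n,
    contDiffOn_expd n, WB n, finrank_WB hn, fun y hy => ?_⟩⟩
  have hdet : ∀ g : SL n, (∀ i j, j < i → g.1 i j = 0) → ∏ i, g.1 i i = 1 := by
    intro g hg
    have hU : g.1.IsUpperTriangular := fun i j hij => hg _ _ hij
    have := g.2
    rwa [det_of_isUpperTriangular hU] at this
  have hx1 : logd x.1 ∈ WB n := (mem_WB_iff hx.2.1).2 ⟨hx.1, hdet x hx.1, hx.2.2⟩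
  have hy' : ∀ i, 0 < y i i := hy
  change (∃ g ∈ (Bp n : Set (SL n)), g.1 = y) ↔ logd y - logd x.1 ∈ WB n
  have h1 : logd y - logd x.1 ∈ WB n ↔ logd y ∈ WB n := by
    constructor
    · intro h
      have := (WB n).add_mem h hx1
      simpa using this
    · intro h
      exact (WB n).sub_mem h hx1
  rw [h1, mem_WB_iff hy']
  constructor
  · rintro ⟨g, hg, rfl⟩
    exact ⟨hg.1, hdet g hg.1, hg.2.2⟩
  · rintro ⟨h2, h3, h4⟩
    have hU : y.IsUpperTriangular := fun i j hij => h2 _ _ hij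
    exact ⟨⟨y, by rw [det_of_isUpperTriangular hU, h3]⟩, ⟨h2, hy', h4⟩, rfl⟩


/-! ### The theorem -/

/-- The denominator in the Lie exponent. -/
theorem denom {n : ℕ} (m : ℝ) :
    m / 3 - (((n : ℝ) ^ 2 - 1) - ((n : ℝ) - 1)) / 2 = m / 3 - (n : ℝ) * ((n : ℝ) - 1) / 2 := by
  ring

theorem half_cast (n : ℕ) : ((n * (n - 1) / 2 : ℕ) : ℝ) = (n : ℝ) * ((n : ℝ) - 1) / 2 := by
  rcases n with _ | n
  · simp
  have h1 : 2 ∣ (n + 1) * (n + 1 - 1) := by
    rw [Nat.add_sub_cancel, mul_comm]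
    exact (Nat.even_mul_succ_self n).two_dvd
  rw [Nat.cast_div h1 (by norm_num)]
  push_cast
  simp

/-- Upper bound. -/
theorem lieExponent_le {n : ℕ} (hn : 3 ≤ n) :
    lieExponent n ≤ ((3 * ((n : ℝ) - 1) / ((n : ℝ) - 2) : ℝ) : EReal) := by
  apply sInf_le
  have hn' : (3 : ℝ) ≤ n := by exact_mod_cast hn
  have h1 : ((((n * (n - 1) / 2 + (n - 2) : ℕ) : ℝ) + (n * (n - 1) / 2 : ℕ) +
      (n * (n - 1) / 2 : ℕ)) / 3 - (((n : ℝ) ^ 2 - 1) - ((n : ℝ) - 1)) / 2) =
      ((n : ℝ) - 2) / 3 := by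
    rw [Nat.cast_add, half_cast, Nat.cast_sub (by omega : 2 ≤ n)]
    push_cast
    ring
  refine ⟨Bp n, Op n, Nm n, _, _, _, isSubmanifold_Bp (by omega), isSubmanifold_Op n,
    isSubmanifold_Nm n, tpp n, ?_, ?_⟩
  · rw [h1]
    linarith
  · rw [h1]
    congr 1
    have : (n : ℝ) - 2 ≠ 0 := by linarith
    field_simp

/-- Total dimension of submanifolds with the triple product property. -/
theorem total {n m₁ m₂ m₃ : ℕ} (hn : 1 ≤ n) {M₁ M₂ M₃ : Set (SL n)}
    (h : TripleProductProperty M₁ M₂ M₃)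
    (h₁ : ContainsCell m₁ M₁) (h₂ : ContainsCell m₂ M₂) (h₃ : ContainsCell m₃ M₃) :
    m₁ + m₂ + m₃ ≤ n ^ 2 - 1 ∨ 2 * (m₁ + m₂ + m₃) + 3 ≤ 3 * (n ^ 2 - 1) := by
  obtain ⟨k, rfl⟩ : ∃ k, n = k + 1 := ⟨n - 1, by omega⟩
  exact total_dim (chart k) h h₁ h₂ h₃

/-- Lower bound. -/
theorem le_lieExponent {n : ℕ} (hn : 3 ≤ n) :
    ((2 * ((n : ℝ) - 1) / ((n : ℝ) - 2) : ℝ) : EReal) ≤ lieExponent n := by
  apply le_sInf
  rintro w ⟨M₁, M₂, M₃, m₁, m₂, m₃, h₁, h₂, h₃, h, hpos, rfl⟩
  have hn' : (3 : ℝ) ≤ n := by exact_mod_cast hn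
  have h1 := total (by omega) h h₁.containsCell h₂.containsCell h₃.containsCell
  have h2 : ((n ^ 2 - 1 : ℕ) : ℝ) = (n : ℝ) ^ 2 - 1 := by
    rw [Nat.cast_sub (by nlinarith)]
    push_cast
    ring
  rw [denom] at hpos ⊢
  have h3 : ((m₁ : ℝ) + m₂ + m₃) ≤ (3 * ((n : ℝ) ^ 2 - 1) - 3) / 2 := by
    rcases h1 with h1 | h1
    · have h4 : ((m₁ + m₂ + m₃ : ℕ) : ℝ) ≤ ((n ^ 2 - 1 : ℕ) : ℝ) := by exact_mod_cast h1
      rw [h2] at h4
      push_cast at h4
      nlinarith
    · have h4 : ((2 * (m₁ + m₂ + m₃) + 3 : ℕ) : ℝ) ≤ ((3 * (n ^ 2 - 1) : ℕ) : ℝ) := by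
        exact_mod_cast h1
      rw [Nat.cast_mul, h2] at h4
      push_cast at h4
      linarith
  apply EReal.coe_le_coe_iff.2
  rw [div_le_div_iff₀ (by linarith) hpos]
  have h4 : ((m₁ : ℝ) + m₂ + m₃) / 3 - (n : ℝ) * ((n : ℝ) - 1) / 2 ≤ ((n : ℝ) - 2) / 2 := by
    linarith
  nlinarith

theorem lieExponent_two : lieExponent 2 = ⊤ := by
  rw [lieExponent, sInf_eq_top]
  rintro w ⟨M₁, M₂, M₃, m₁, m₂, m₃, h₁, h₂, h₃, h, hpos, rfl⟩
  exfalso
  have h1 := total (by omega) h h₁.containsCell h₂.containsCell h₃.containsCell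
  have h2 : m₁ + m₂ + m₃ ≤ 3 := by
    rcases h1 with h1 | h1 <;> omega
  have h3 : ((m₁ + m₂ + m₃ : ℕ) : ℝ) ≤ 3 := by exact_mod_cast h2
  push_cast at h3
  norm_num at hpos
  linarith

theorem lieExponent_three : lieExponent 3 = 6 := by
  apply le_antisymm
  · have := lieExponent_le (n := 3) le_rfl
    refine this.trans ?_
    norm_num
    exact le_rfl
  · apply le_sInf
    rintro w ⟨M₁, M₂, M₃, m₁, m₂, m₃, h₁, h₂, h₃, h, hpos, rfl⟩
    have h1 := total (by omega) h h₁.containsCell h₂.containsCell h₃.containsCell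
    have h2 : m₁ + m₂ + m₃ ≤ 10 := by
      rcases h1 with h1 | h1 <;> omega
    have h3 : ((m₁ + m₂ + m₃ : ℕ) : ℝ) ≤ 10 := by exact_mod_cast h2
    push_cast at h3
    have h4 : (6 : ℝ) ≤ ((((3 : ℕ) : ℝ) - 1) /
        (((m₁ : ℝ) + m₂ + m₃) / 3 - ((((3 : ℕ) : ℝ) ^ 2 - 1) - (((3 : ℕ) : ℝ) - 1)) / 2)) := by
      rw [le_div_iff₀ hpos]
      push_cast
      linarith
    exact EReal.coe_le_coe_iff.2 h4

/-- **Theorem.** (1) For `n ≥ 2` the Lie exponent of `SL(n, ℝ)` is finite if and only if `n ≥ 3`.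
(2) `ω(SL(2, ℝ)) = ∞`. (3) `ω(SL(3, ℝ)) = 6`. (4) For `n ≥ 3`,
`2 (n - 1) / (n - 2) ≤ ω(SL(n, ℝ)) ≤ 3 (n - 1) / (n - 2)`. (5) For `n ≥ 2` there are submanifolds of
dimensions `n (n - 1) / 2 + (n - 2)`, `n (n - 1) / 2`, `n (n - 1) / 2` with the triple product
property. (6) Subsets of `SL(2, ℝ)` with the triple product property which contain injective
continuous images of nonempty open subsets of `ℝ ^ m₁`, `ℝ ^ m₂`, `ℝ ^ m₃` satisfy
`m₁ + m₂ + m₃ ≤ 3`. -/
theorem result :
    (∀ n : ℕ, 2 ≤ n → (lieExponent n < ⊤ ↔ 3 ≤ n)) ∧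
    lieExponent 2 = ⊤ ∧ lieExponent 3 = 6 ∧
    (∀ n : ℕ, 3 ≤ n →
      ((2 * ((n : ℝ) - 1) / ((n : ℝ) - 2) : ℝ) : EReal) ≤ lieExponent n ∧
      lieExponent n ≤ ((3 * ((n : ℝ) - 1) / ((n : ℝ) - 2) : ℝ) : EReal)) ∧
    (∀ n : ℕ, 2 ≤ n → ∃ M₁ M₂ M₃ : Set (SL n),
      IsSubmanifold (n * (n - 1) / 2 + (n - 2)) M₁ ∧ IsSubmanifold (n * (n - 1) / 2) M₂ ∧
      IsSubmanifold (n * (n - 1) / 2) M₃ ∧ TripleProductProperty M₁ M₂ M₃) ∧
    (∀ (M₁ M₂ M₃ : Set (SL 2)) (m₁ m₂ m₃ : ℕ), TripleProductProperty M₁ M₂ M₃ →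
      ContainsCell m₁ M₁ → ContainsCell m₂ M₂ → ContainsCell m₃ M₃ → m₁ + m₂ + m₃ ≤ 3) := by
  refine ⟨fun n hn => ⟨fun h => ?_, fun h => ?_⟩, lieExponent_two, lieExponent_three,
    fun n hn => ⟨le_lieExponent hn, lieExponent_le hn⟩, fun n hn => ⟨Bp n, Op n, Nm n,
    isSubmanifold_Bp hn, isSubmanifold_Op n, isSubmanifold_Nm n, tpp n⟩, ?_⟩
  · by_contra h3
    have : n = 2 := by omega
    subst this
    rw [lieExponent_two] at h
    exact lt_irrefl _ h
  · exact lt_of_le_of_lt (lieExponent_le h) (EReal.coe_lt_top _)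
  · intro M₁ M₂ M₃ m₁ m₂ m₃ h h₁ h₂ h₃
    have h1 := total (by omega) h h₁ h₂ h₃
    rcases h1 with h1 | h1 <;> omega

end Pool.Agent.Results.MP_9660fa_lc.FiniteIffThree
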